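import Pool.Agent.H77Z.Strip.Main

namespace Pool.Agent.Results.MP_0a22a9_gt.ANullGammaNull

open MeasureTheory Pool.Agent.H77Z.Strip

theorem result : ∀ d : ℕ, 2 ≤ d → ∀ A : Set (EuclideanSpace ℝ (Fin d)),
    volume A = 0 → gamma A = 0 :=
  fun _ _ _ hA => gamma_eq_zero hA

end Pool.Agent.Results.MP_0a22a9_gt.ANullGammaNull
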